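import Mathlib
import Pool.Agent.H84.LieHom.PartA
import Pool.Agent.H84.LieHom.PartC2

/-!
Logical homogeneity of free, free nilpotent and free solvable Lie algebras:
(a) free Lie algebras of finite rank over a field are logically homogeneous;
(b) free nilpotent Lie algebras of finite rank over a field are logically homogeneous;
(c) the free metabelian Lie algebra of rank three over the field with two elements is not.

The language of Lie algebras, equality of types and logical homogeneity are defined in
`Pool.Agent.H84.LieHom.Lang`. The free Lie algebra of rank `r` is Mathlib's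
`FreeLieAlgebra k (Fin r)`. Mathlib's lower central series is indexed from zero, so that its term
with index `n` is `γ_{n+1}`; its derived series term with index `n` is `L^{(n)}`.
-/

set_option autoImplicit false

universe u

namespace Pool.Agent.Results.MP_4b2ccd_lc.Homogeneity

open Pool.Agent.H84.LieHom

/-- The answer to all three parts of the question: (a) and (b) are true, (c) is false. -/
theorem result :
    (∀ (k : Type u) [Field k] (r : ℕ), LogicallyHomogeneous k (FreeLieAlgebra k (Fin r))) ∧
    (∀ (k : Type u) [Field k] (r n : ℕ), LogicallyHomogeneous k
      (FreeLieAlgebra k (Fin r) ⧸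
        LieModule.lowerCentralSeries k (FreeLieAlgebra k (Fin r)) (FreeLieAlgebra k (Fin r)) n)) ∧
    ¬ LogicallyHomogeneous (ZMod 2)
      (FreeLieAlgebra (ZMod 2) (Fin 3) ⧸
        LieAlgebra.derivedSeries (ZMod 2) (FreeLieAlgebra (ZMod 2) (Fin 3)) 2) :=
  ⟨fun k _ r => free_logicallyHomogeneous k r,
    fun k _ r n => freeNilpotent_logicallyHomogeneous k r n, freeSolvable_not_homogeneous⟩

end Pool.Agent.Results.MP_4b2ccd_lc.Homogeneity
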